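import Pool.Agent.Helper65.TU.Stmts

/-! Row L1 of the project TU. -/

open Set Filter Topology

namespace Pool.Agent.Helper65.TU

universe u v

namespace S1

open Classical in
/-- coordinates of a finite combination of the basis vectors -/
theorem co_sum {Γ : Type v} {X : Type u} [NormedAddCommGroup X] [NormedSpace ℝ X] {e : Γ → X}
    {co : Γ → X →L[ℝ] ℝ} {C : ℝ} (h : CS e co C) (F : Finset Γ) (w : Γ → ℝ) (g : Γ) :
    co g (∑ k ∈ F, w k • e k) = if g ∈ F then w g else 0 := by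
  rw [map_sum]
  have : ∀ k ∈ F, co g (w k • e k) = if g = k then w k else 0 := by
    intro k _
    rw [map_smul, h.bio, smul_eq_mul]
    split_ifs <;> simp
  rw [Finset.sum_congr rfl this, Finset.sum_ite_eq]

open Classical in
/-- the finite partial sums are bounded -/
theorem fin_le {Γ : Type v} {X : Type u} [NormedAddCommGroup X] [NormedSpace ℝ X] {e : Γ → X}
    {co : Γ → X →L[ℝ] ℝ} {C : ℝ} (h : CS e co C) (f : X →L[ℝ] ℝ) (x : X) (F : Finset Γ) :
    ∑ g ∈ F, |f (e g) * co g x| ≤ C * ‖f‖ * ‖x‖ := by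
  let σ : Γ → ℝ := fun g => if 0 ≤ f (e g) * co g x then 1 else -1
  have hσ : ∀ g, σ g * (f (e g) * co g x) = |f (e g) * co g x| := by
    intro g
    simp only [σ]
    split_ifs with h0
    · rw [one_mul, abs_of_nonneg h0]
    · rw [abs_of_neg (not_le.mp h0)]; ring
  let s : Γ → ℝ := fun g => if g ∈ F then σ g else 0
  have hs : ∀ g, |s g| ≤ 1 := by
    intro g
    simp only [s, σ]
    split_ifs <;> simp
  obtain ⟨T, hT, hTn⟩ := h.mul s hs
  have e1 : T x = ∑ k ∈ F, (σ k * co k x) • e k := by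
    rw [← sub_eq_zero]
    apply h.sep
    intro g
    rw [map_sub, hT, co_sum h F (fun k => σ k * co k x) g]
    simp only [s]
    split_ifs <;> simp
  have e2 : ∑ g ∈ F, |f (e g) * co g x| = f (T x) := by
    rw [e1, map_sum]
    refine Finset.sum_congr rfl fun g _ => ?_
    rw [map_smul, smul_eq_mul, ← hσ g]
    ring
  rw [e2]
  calc f (T x) ≤ ‖f (T x)‖ := Real.le_norm_self _
    _ ≤ ‖f‖ * ‖T x‖ := f.le_opNorm _
    _ ≤ ‖f‖ * (C * ‖x‖) := mul_le_mul_of_nonneg_left (hTn x) (norm_nonneg _)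
    _ = C * ‖f‖ * ‖x‖ := by ring

open Classical in
theorem hasSum_of {Γ : Type v} {X : Type u} [NormedAddCommGroup X] [NormedSpace ℝ X] {e : Γ → X}
    {co : Γ → X →L[ℝ] ℝ} {C : ℝ} (h : CS e co C) (f : X →L[ℝ] ℝ) (x : X) (s : Γ → ℝ)
    (hs : ∀ g, |s g| ≤ 1) (y : X) (hy : ∀ g, co g y = s g * co g x) :
    HasSum (fun g => s g * (f (e g) * co g x)) (f y) := by
  unfold HasSum
  simp only [SummationFilter.unconditional_filter]
  rw [Metric.tendsto_atTop]
  intro ε hε
  have hf : 0 < ‖f‖ + 1 := by positivity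
  obtain ⟨F, hF⟩ := h.fin x (ε / (2 * (‖f‖ + 1))) (by positivity)
  refine ⟨F, fun F' hF' => ?_⟩
  have hF'' : F ⊆ F' := hF'
  let z : X := y - ∑ k ∈ F', (s k * co k x) • e k
  have hz : ‖z‖ ≤ ε / (2 * (‖f‖ + 1)) := by
    refine hF (fun g => if g ∈ F' then 0 else s g) ?_ ?_ z ?_
    · intro g
      split_ifs
      · simp
      · exact hs g
    · intro g hg
      rw [if_pos (hF'' hg)]
    · intro g
      simp only [z]
      rw [map_sub, hy, co_sum h F' (fun k => s k * co k x) g]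
      split_ifs <;> simp
  have e1 : f y - ∑ g ∈ F', s g * (f (e g) * co g x) = f z := by
    simp only [z]
    rw [map_sub, map_sum]
    congr 1
    refine Finset.sum_congr rfl fun g _ => ?_
    rw [map_smul, smul_eq_mul]
    ring
  rw [dist_comm, Real.dist_eq, e1]
  calc |f z| = ‖f z‖ := rfl
    _ ≤ ‖f‖ * ‖z‖ := f.le_opNorm _
    _ ≤ (‖f‖ + 1) * (ε / (2 * (‖f‖ + 1))) :=
        mul_le_mul (by linarith) hz (norm_nonneg _) hf.le
    _ = ε / 2 := by field_simp
    _ < ε := by linarith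

end S1

theorem st_L1 : ST_L1.{u, v} := by
  intro Γ X _ _ e co C h f x
  refine ⟨?_, ?_, ?_⟩
  · exact summable_of_sum_le (fun g => abs_nonneg _) (S1.fin_le h f x)
  · exact Real.tsum_le_of_sum_le (fun g => abs_nonneg _) (S1.fin_le h f x)
  · intro s hs y hy
    exact (S1.hasSum_of h f x s hs y hy).tsum_eq.symm

end Pool.Agent.Helper65.TU
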